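import Pool.Agent.Y287.JP.Res

/-!
# Project JP: the `L`-functions of products of characters
-/

set_option autoImplicit false

open Finset

namespace Pool.Agent.Y287.JP

open Pool.Agent.Y690.PP Pool.Agent.Y690.JP

/-- the set of a linear character -/
noncomputable def kap {Q : Finset Pr} (x : XQ Q) : Finset Pr :=
  open scoped Classical in
  ((univ : Finset Q).filter fun b => x.2 b = 1).map (Function.Embedding.subtype _)

theorem mem_kap {Q : Finset Pr} {x : XQ Q} {p : Pr} :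
    p ∈ kap x ↔ ∃ h : p ∈ Q, x.2 ⟨p, h⟩ = 1 := by
  classical
  unfold kap
  rw [Finset.mem_map]
  constructor
  · rintro ⟨b, hb, rfl⟩
    exact ⟨b.2, (Finset.mem_filter.1 hb).2⟩
  · rintro ⟨h, hx⟩
    exact ⟨⟨p, h⟩, Finset.mem_filter.2 ⟨mem_univ _, hx⟩, rfl⟩

theorem kap_sub {Q : Finset Pr} (x : XQ Q) : kap x ⊆ Q := fun _ hp => (mem_kap.1 hp).1

theorem disj_kap {Q : Finset Pr} (x : XQ Q) (A : Finset (PQ Q)) :
    Disjoint (A.map (emQ Q)) (kap x) := by
  rw [Finset.disjoint_left]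
  intro p hp hp'
  obtain ⟨q, -, rfl⟩ := Finset.mem_map.1 hp
  exact q.2 (kap_sub x hp')

theorem zval (z : ZMod 2) : z.val = if z = 1 then 1 else 0 := by
  revert z
  decide

theorem prod_kap {Q : Finset Pr} (x : XQ Q) (f : Pr → ℝ) :
    ∏ b : Q, f b.1 ^ (x.2 b).val = ∏ q ∈ kap x, f q := by
  classical
  unfold kap
  rw [Finset.prod_map, Finset.prod_filter]
  refine Finset.prod_congr rfl fun b _ => ?_
  rw [zval]
  split_ifs
  · rw [pow_one]; rfl
  · rw [pow_zero]

open Classical in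
theorem ch_eq {Q : Finset Pr} (x : XQ Q) (A : Finset (PQ Q)) (p : PQ Q) :
    chQ Q x p * ∏ q ∈ A, sQ Q q p =
      gt p.1 ^ x.1.val * ∏ q ∈ A.map (emQ Q) ∪ kap x, gs q p.1 := by
  rw [Finset.prod_union (disj_kap x A), Finset.prod_map]
  unfold chQ
  rw [prod_kap x fun b => gs b p.1, mul_assoc]
  congr 1
  rw [mul_comm]
  rfl

theorem abs_gs (h : Basic gN gs gt) (q p : Pr) : |gs q p| ≤ 1 := by
  by_cases e : q = p
  · rw [e, h.s_self, abs_zero]
    exact zero_le_one
  · rcases h.s_val q p e with h1 | h1 <;> rw [h1] <;> norm_num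

/-- JP-A3 -/
theorem t_A3' : SA3 := by
  classical
  intro h h2 h3 Q
  obtain ⟨C2, hC2⟩ := h2
  obtain ⟨C3, hC3⟩ := h3
  refine ⟨C3 + Real.log (1 + Real.log (NN gN Q)) + #Q, fun A x hAx σ hσ hσ2 => ?_⟩
  obtain ⟨A1, hA1⟩ : ∃ A1 : Finset Pr, A1 = A.map (emQ Q) ∪ kap x := ⟨_, rfl⟩
  have he : x.1.val ≤ 1 := Nat.lt_succ_iff.1 (ZMod.val_lt x.1)
  have hne : A1.Nonempty ∨ x.1.val = 1 := by
    rcases hAx with hA | hx
    · left
      rw [hA1]
      exact (hA.map).mono subset_union_left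
    · by_cases hx1 : x.1 = 0
      · left
        have hx2 : x.2 ≠ 0 := fun e => hx (Prod.ext hx1 e)
        obtain ⟨b, hb⟩ := Function.ne_iff.1 hx2
        have hb1 : x.2 b = 1 := by
          have : ∀ z : ZMod 2, z ≠ 0 → z = 1 := by decide
          exact this _ hb
        rw [hA1]
        exact ⟨b.1, mem_union_right _ (mem_kap.2 ⟨b.2, hb1⟩)⟩
      · right
        have : ∀ z : ZMod 2, z ≠ 0 → z.val = 1 := by decide
        exact this _ hx1
  have hN : ∀ p : Pr, (0 : ℝ) < gN p := fun p => by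
    have := h.two_le p
    exact_mod_cast (by omega : 0 < gN p)
  obtain ⟨F, hF⟩ : ∃ F : Pr → ℝ, F = fun p =>
      gt p ^ x.1.val * (∏ q ∈ A1, gs q p) * (gN p : ℝ) ^ (-σ) := ⟨_, rfl⟩
  have hsum : Summable fun p : Pr => (gN p : ℝ) ^ (-σ) :=
    summable_of_sum_le (c := Real.log (1 / (σ - 1)) + C2)
      (fun p => Real.rpow_nonneg (hN p).le _) fun F => hC2 F σ hσ hσ2
  have hFle : ∀ p, |F p| ≤ (gN p : ℝ) ^ (-σ) := by
    intro p
    have h0 : 0 ≤ (gN p : ℝ) ^ (-σ) := Real.rpow_nonneg (hN p).le _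
    have h1 : |gt p ^ x.1.val| ≤ 1 := by
      rcases pm_val (h.t_val p) x.1.val with e | e <;> rw [e] <;> norm_num
    have h2 : |∏ q ∈ A1, gs q p| ≤ 1 := by
      rw [Finset.abs_prod]
      exact Finset.prod_le_one (fun q _ => abs_nonneg _) fun q _ => abs_gs h q p
    rw [hF]
    show |gt p ^ x.1.val * (∏ q ∈ A1, gs q p) * (gN p : ℝ) ^ (-σ)| ≤ _
    rw [abs_mul, abs_mul, abs_of_nonneg h0]
    have h3 : |gt p ^ x.1.val| * |∏ q ∈ A1, gs q p| ≤ 1 :=
      mul_le_one₀ h1 (abs_nonneg _) h2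
    calc _ ≤ 1 * (gN p : ℝ) ^ (-σ) := mul_le_mul_of_nonneg_right h3 h0
      _ = _ := one_mul _
  have hFs : Summable F := by
    refine Summable.of_norm_bounded hsum fun p => ?_
    rw [Real.norm_eq_abs]
    exact hFle p
  have h4 : ∑ p ∈ Q, F p + ∑' p : PQ Q, F p.1 = ∑' p, F p :=
    hFs.sum_add_tsum_subtype_compl Q
  have h5 : ∑' p : PQ Q, chQ Q x p * (∏ q ∈ A, sQ Q q p) * (nQ Q p : ℝ) ^ (-σ) =
      ∑' p : PQ Q, F p.1 := by
    refine tsum_congr fun p => ?_
    rw [ch_eq, hF, hA1]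
    rfl
  have h6 : ∑' p, F p ≤ Real.log (1 + Real.log (NN gN A1)) + C3 := by
    have := hC3 A1 x.1.val hne he σ hσ hσ2
    rw [hF]
    exact this
  have h7 : -∑ p ∈ Q, F p ≤ #Q := by
    have h8 : |∑ p ∈ Q, F p| ≤ ∑ p ∈ Q, (1 : ℝ) := by
      refine (Finset.abs_sum_le_sum_abs _ _).trans (Finset.sum_le_sum fun p _ => ?_)
      refine (hFle p).trans ?_
      have h9 : (1 : ℝ) ≤ gN p := by
        have := h.two_le p
        exact_mod_cast (by omega : 1 ≤ gN p)
      exact Real.rpow_le_one_of_one_le_of_nonpos h9 (by linarith)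
    rw [Finset.sum_const, nsmul_eq_mul, mul_one] at h8
    exact (neg_le_abs _).trans h8
  have h8 : Real.log (1 + Real.log (NN gN A1)) ≤
      Real.log (1 + Real.log (NN (nQ Q) A)) + Real.log (1 + Real.log (NN gN Q)) := by
    have a1 : (1 : ℝ) ≤ NN (nQ Q) A := by
      exact_mod_cast NN_pos (basicQ h Q) A
    have a2 : (1 : ℝ) ≤ NN gN Q := by exact_mod_cast NN_pos h Q
    have a3 : (1 : ℝ) ≤ NN gN A1 := by exact_mod_cast NN_pos h A1
    have a4 : (NN gN A1 : ℝ) ≤ NN (nQ Q) A * NN gN Q := by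
      have b1 : NN gN A1 = NN (nQ Q) A * NN gN (kap x) := by
        rw [hA1, NN_map]
        unfold NN
        exact Finset.prod_union (disj_kap x A)
      have b2 : NN gN (kap x) ≤ NN gN Q := NN_mono h (kap_sub x)
      rw [b1]
      exact_mod_cast Nat.mul_le_mul_left _ b2
    have l1 := Real.log_nonneg a1
    have l2 := Real.log_nonneg a2
    have l3 := Real.log_nonneg a3
    rw [← Real.log_mul (by linarith) (by linarith)]
    refine Real.log_le_log (by linarith) ?_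
    have l4 : Real.log (NN gN A1) ≤ Real.log (NN (nQ Q) A) + Real.log (NN gN Q) := by
      rw [← Real.log_mul (by linarith) (by linarith)]
      exact Real.log_le_log (by linarith) a4
    nlinarith [mul_nonneg l1 l2]
  rw [h5]
  linarith

end Pool.Agent.Y287.JP
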