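import Pool.Agent.Y690.JP.Stm

/-!
# Project JP: the primes outside a finite set
-/

set_option autoImplicit false

open Finset

namespace Pool.Agent.Y287.JP

open Pool.Agent.Y690.PP Pool.Agent.Y690.JP

section

variable (Q : Finset Pr)

theorem NN_map (A : Finset (PQ Q)) : NN (nQ Q) A = NN gN (A.map (emQ Q)) := by
  unfold NN
  rw [Finset.prod_map]
  rfl

theorem sy_map (A B : Finset (PQ Q)) :
    sy (sQ Q) A B = sy gs (A.map (emQ Q)) (B.map (emQ Q)) := by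
  unfold sy
  rw [Finset.prod_map]
  refine Finset.prod_congr rfl fun p _ => ?_
  rw [Finset.prod_map]
  rfl

/-- the part outside `Q` -/
noncomputable def pre (A : Finset Pr) : Finset (PQ Q) :=
  A.preimage (emQ Q) ((emQ Q).injective.injOn)

theorem mem_pre {A : Finset Pr} {p : PQ Q} : p ∈ pre Q A ↔ p.1 ∈ A := by
  unfold pre
  rw [Finset.mem_preimage]
  rfl

theorem pre_map_sub (A : Finset Pr) : (pre Q A).map (emQ Q) ⊆ A := by
  intro p hp
  obtain ⟨q, hq, rfl⟩ := Finset.mem_map.1 hp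
  exact (mem_pre Q).1 hq

theorem range_iff {A : Finset Pr} : (∃ A' : Finset (PQ Q), A'.map (emQ Q) = A) ↔ ∀ p ∈ A, p ∉ Q := by
  constructor
  · rintro ⟨A', rfl⟩ p hp
    obtain ⟨q, -, rfl⟩ := Finset.mem_map.1 hp
    exact q.2
  · intro h
    refine ⟨pre Q A, Finset.Subset.antisymm (pre_map_sub Q A) fun p hp => ?_⟩
    exact Finset.mem_map.2 ⟨⟨p, h p hp⟩, (mem_pre Q).2 hp, rfl⟩

variable {Q}

theorem basicQ (h : Basic gN gs gt) (Q : Finset Pr) : Basic (nQ Q) (sQ Q) (fun _ => 1) where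
  two_le p := h.two_le p.1
  fin x := (h.fin x).preimage ((emQ Q).injective.injOn)
  s_self p := h.s_self p.1
  s_val p q hpq := h.s_val p.1 q.1 fun e => hpq (Subtype.ext e)
  s_symm p q := h.s_symm p.1 q.1
  t_val _ := Or.inl rfl

theorem s_pm (h : Basic gN gs gt) {b : Pr} (hb : b ∈ Q) (p : PQ Q) :
    gs b p.1 = 1 ∨ gs b p.1 = -1 :=
  h.s_val b p.1 fun e => p.2 (e ▸ hb)

theorem linQ (h : Basic gN gs gt) (Q : Finset Pr) : Lin (chQ Q) where
  zero p := by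
    unfold chQ
    simp only [Prod.fst_zero, Prod.snd_zero, Pi.zero_apply, ZMod.val_zero, pow_zero,
      Finset.prod_const_one, mul_one]
  add x y p := by
    unfold chQ
    have h1 : gt p.1 ^ (x + y).1.val = gt p.1 ^ x.1.val * gt p.1 ^ y.1.val :=
      pm_pow (h.t_val p.1) x.1 y.1
    have h2 : ∏ b : Q, gs b.1 p.1 ^ ((x + y).2 b).val =
        (∏ b : Q, gs b.1 p.1 ^ (x.2 b).val) * ∏ b : Q, gs b.1 p.1 ^ (y.2 b).val := by
      rw [← Finset.prod_mul_distrib]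
      exact Finset.prod_congr rfl fun b _ => pm_pow (s_pm h b.2 p) (x.2 b) (y.2 b)
    rw [h1, h2]
    ring
  two x := by
    refine Prod.ext ?_ ?_
    · exact CharTwo.add_self_eq_zero x.1
    · funext b
      exact CharTwo.add_self_eq_zero (x.2 b)
  val x p := by
    unfold chQ
    refine pm_mul (pm_val (h.t_val p.1) _) ?_
    have h3 : ∀ S : Finset Q, (∏ b ∈ S, gs b.1 p.1 ^ (x.2 b).val) = 1 ∨
        (∏ b ∈ S, gs b.1 p.1 ^ (x.2 b).val) = -1 := by
      classical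
      intro S
      induction S using Finset.induction_on with
      | empty => left; exact Finset.prod_empty
      | insert b S hb ih =>
        rw [Finset.prod_insert hb]
        exact pm_mul (pm_val (s_pm h b.2 p) _) ih
    exact h3 univ

theorem A2Q (h : A2 gN) (Q : Finset Pr) : A2 (nQ Q) := by
  obtain ⟨C, hC⟩ := h
  refine ⟨C, fun F σ h1 h2 => ?_⟩
  have h3 := hC (F.map (emQ Q)) σ h1 h2
  rw [Finset.sum_map] at h3
  exact h3

/-- sums over sets of primes -/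
theorem sum_FF (h : Basic gN gs gt) (Q : Finset Pr) (Y : ℝ) (F : Finset Pr → ℝ)
    (hF : ∀ A, (¬ ∃ A' : Finset (PQ Q), A'.map (emQ Q) = A) → F A = 0) :
    ∑ A ∈ FF gN Y, F A = ∑ A ∈ FF (nQ Q) Y, F (A.map (emQ Q)) := by
  classical
  have hinj : Function.Injective fun A : Finset (PQ Q) => A.map (emQ Q) :=
    Finset.map_injective (emQ Q)
  have h1 : ∑ A ∈ FF (nQ Q) Y, F (A.map (emQ Q)) =
      ∑ A ∈ (FF (nQ Q) Y).map ⟨fun A => A.map (emQ Q), hinj⟩, F A := by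
    rw [Finset.sum_map]
    rfl
  rw [h1]
  symm
  refine Finset.sum_subset ?_ ?_
  · intro A hA
    obtain ⟨A', hA', rfl⟩ := Finset.mem_map.1 hA
    rw [mem_FF (basicQ h Q), NN_map] at hA'
    exact (mem_FF h).2 hA'
  · intro A hA hA'
    refine hF A ?_
    rintro ⟨B, rfl⟩
    refine hA' (Finset.mem_map.2 ⟨B, ?_, rfl⟩)
    rw [mem_FF (basicQ h Q), NN_map]
    exact (mem_FF h).1 hA

/-- sums over primes -/
theorem sum_PB (h : Basic gN gs gt) (Q : Finset Pr) (Y : ℝ) (F : Pr → ℝ)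
    (hF : ∀ p ∈ Q, F p = 0) :
    ∑ p ∈ PB gN Y, F p = ∑ p ∈ PB (nQ Q) Y, F p.1 := by
  classical
  have h1 : ∑ p ∈ PB (nQ Q) Y, F p.1 = ∑ p ∈ (PB (nQ Q) Y).map (emQ Q), F p := by
    rw [Finset.sum_map]
    rfl
  rw [h1]
  symm
  refine Finset.sum_subset ?_ ?_
  · intro p hp
    obtain ⟨p', hp', rfl⟩ := Finset.mem_map.1 hp
    rw [mem_PB (basicQ h Q)] at hp'
    exact (mem_PB h).2 hp'
  · intro p hp hp'
    refine hF p ?_
    by_contra hpQ
    refine hp' (Finset.mem_map.2 ⟨⟨p, hpQ⟩, ?_, rfl⟩)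
    rw [mem_PB (basicQ h Q)]
    exact (mem_PB h).1 hp

theorem A4Q (h : Basic gN gs gt) (h4 : A4 gN gs) (Q : Finset Pr) : A4 (nQ Q) (sQ Q) := by
  classical
  obtain ⟨C, δ, D, hδ, hC⟩ := h4
  refine ⟨C, δ, D, hδ, fun a b ha hb Z Y hZ hY => ?_⟩
  have hinj : Function.Injective fun A : Finset (PQ Q) => A.map (emQ Q) :=
    Finset.map_injective (emQ Q)
  have hext : ∀ a : Finset (PQ Q) → ℝ, (∀ A, |a A| ≤ 1) → ∃ a' : Finset Pr → ℝ,
      (∀ A, |a' A| ≤ 1) ∧ (∀ A : Finset (PQ Q), a' (A.map (emQ Q)) = a A) ∧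
      ∀ A, (¬ ∃ A' : Finset (PQ Q), A'.map (emQ Q) = A) → a' A = 0 := by
    intro a ha
    refine ⟨Function.extend (fun A : Finset (PQ Q) => A.map (emQ Q)) a (fun _ => (0 : ℝ)),
      fun A => ?_, fun A => hinj.extend_apply a (fun _ => (0 : ℝ)) A,
      fun A hA => Function.extend_apply' a (fun _ => (0 : ℝ)) A hA⟩
    by_cases hA : ∃ A' : Finset (PQ Q), A'.map (emQ Q) = A
    · obtain ⟨A', rfl⟩ := hA
      have := hinj.extend_apply a (fun _ => (0 : ℝ)) A'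
      rw [this]
      exact ha A'
    · rw [Function.extend_apply' a (fun _ => (0 : ℝ)) A hA]
      simp
  obtain ⟨a', ha1, ha2, ha3⟩ := hext a ha
  obtain ⟨b', hb1, hb2, hb3⟩ := hext b hb
  have h5 := hC a' b' ha1 hb1 Z Y hZ hY
  have h6 : (∑ A ∈ FF gN Y, ∑ B ∈ FF gN Y,
      if Z < NN gN A ∧ Z < NN gN B ∧ (NN gN A : ℝ) * NN gN B ≤ Y then
        a' A * b' B * sy gs A B else 0) =
      ∑ A ∈ FF (nQ Q) Y, ∑ B ∈ FF (nQ Q) Y,
        if Z < NN (nQ Q) A ∧ Z < NN (nQ Q) B ∧ (NN (nQ Q) A : ℝ) * NN (nQ Q) B ≤ Y then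
          a A * b B * sy (sQ Q) A B else 0 := by
    rw [sum_FF h Q Y _ ?_]
    · refine Finset.sum_congr rfl fun A _ => ?_
      rw [sum_FF h Q Y _ ?_]
      · refine Finset.sum_congr rfl fun B _ => ?_
        rw [ha2, hb2, ← NN_map, ← NN_map, ← sy_map]
      · intro B hB
        rw [hb3 B hB, mul_zero, zero_mul, ite_self]
    · intro A hA
      refine Finset.sum_eq_zero fun B _ => ?_
      rw [ha3 A hA, zero_mul, zero_mul, ite_self]
  rw [h6] at h5
  exact h5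

theorem A5Q (h : Basic gN gs gt) (h5 : A5 gN) (Q : Finset Pr) : A5 (nQ Q) := by
  classical
  obtain ⟨c, hc, h6⟩ := h5
  refine ⟨c / 2 ^ #Q, by positivity, fun x hx => ?_⟩
  have h7 : #(FF gN x) ≤ #(Q.powerset ×ˢ FF (nQ Q) x) := by
    refine Finset.card_le_card_of_injOn (fun A => (A ∩ Q, pre Q A)) ?_ ?_
    · intro A hA
      have hA' := (mem_FF h).1 (Finset.mem_coe.1 hA)
      refine Finset.mem_coe.2 (Finset.mem_product.2 ⟨Finset.mem_powerset.2 inter_subset_right, ?_⟩)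
      rw [mem_FF (basicQ h Q), NN_map]
      refine le_trans ?_ hA'
      exact_mod_cast NN_mono h (pre_map_sub Q A)
    · intro A _ B _ hAB
      obtain ⟨e1, e2⟩ := Prod.ext_iff.1 hAB
      have e1' : A ∩ Q = B ∩ Q := e1
      have e2' : pre Q A = pre Q B := e2
      ext p
      by_cases hp : p ∈ Q
      · have : p ∈ A ∩ Q ↔ p ∈ B ∩ Q := by rw [e1']
        rw [Finset.mem_inter, Finset.mem_inter] at this
        tauto
      · obtain ⟨q, rfl⟩ : ∃ q : PQ Q, q.1 = p := ⟨⟨p, hp⟩, rfl⟩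
        rw [← mem_pre Q, ← mem_pre Q, e2']
  rw [Finset.card_product, Finset.card_powerset] at h7
  have h8 : (#(FF gN x) : ℝ) ≤ 2 ^ #Q * #(FF (nQ Q) x) := by exact_mod_cast h7
  have h9 := h6 x hx
  rw [div_mul_eq_mul_div, div_le_iff₀ (by positivity)]
  linarith

theorem HRQ (h : Basic gN gs gt) (hr : HR gN) (Q : Finset Pr) : HR (nQ Q) := by
  classical
  obtain ⟨C, hC, h1⟩ := hr
  refine ⟨C, hC, fun g hg0 hg1 x hx => ?_⟩
  obtain ⟨g', hg'⟩ : ∃ g' : Pr → ℝ, g' = fun p => if hp : p ∉ Q then g ⟨p, hp⟩ else 0 := ⟨_, rfl⟩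
  have e1 : ∀ p : PQ Q, g' p.1 = g p := fun p => by
    rw [hg']
    exact dif_pos p.2
  have e2 : ∀ p ∈ Q, g' p = 0 := fun p hp => by
    rw [hg']
    exact dif_neg (not_not.2 hp)
  have e3 : ∀ p, 0 ≤ g' p := fun p => by
    by_cases hp : p ∈ Q
    · rw [e2 p hp]
    · rw [e1 ⟨p, hp⟩]
      exact hg0 _
  have e4 : ∀ p, g' p ≤ 1 := fun p => by
    by_cases hp : p ∈ Q
    · rw [e2 p hp]
      exact zero_le_one
    · rw [e1 ⟨p, hp⟩]
      exact hg1 _
  have h2 := h1 g' e3 e4 x hx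
  rw [sum_FF h Q x _ ?_, sum_PB h Q x _ ?_] at h2
  · have h3 : ∑ A ∈ FF (nQ Q) x, ∏ p ∈ A.map (emQ Q), g' p =
        ∑ A ∈ FF (nQ Q) x, ∏ p ∈ A, g p := by
      refine Finset.sum_congr rfl fun A _ => ?_
      rw [Finset.prod_map]
      exact Finset.prod_congr rfl fun p _ => e1 p
    have h4 : ∑ p ∈ PB (nQ Q) x, g' p.1 * (gN p.1 : ℝ) ^ (-(1 + 1 / Real.log x)) =
        ∑ p ∈ PB (nQ Q) x, g p * (nQ Q p : ℝ) ^ (-(1 + 1 / Real.log x)) := by
      refine Finset.sum_congr rfl fun p _ => ?_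
      rw [e1]
      rfl
    rw [h3, h4] at h2
    exact h2
  · intro p hp
    rw [e2 p hp, zero_mul]
  · intro A hA
    rw [range_iff] at hA
    push Not at hA
    obtain ⟨p, hp, hpQ⟩ := hA
    exact Finset.prod_eq_zero hp (e2 p hpQ)

end

/-- JP-RES -/
theorem t_RES : SRES := by
  intro h h2 h4 h5 hr Q
  exact ⟨basicQ h Q, linQ h Q, A2Q h2 Q, A4Q h h4 Q, A5Q h h5 Q, HRQ h hr Q⟩

end Pool.Agent.Y287.JP
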